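import Pool.Agent.H61.NVK.TargetsE2

/-!
# CTE: the constant term (helper82, board nvk_modules)
-/

set_option autoImplicit false

open MeasureTheory Set Filter NumberField NumberField.InfinitePlace Pool.Agent.H65.CM4
  Pool.Agent.H61.CM4 Pool.Agent.H61.NVK
open scoped Real nonZeroDivisors

namespace Pool.Agent.H82.NVE_CTE

/-- the numerical identity. -/
theorem num (n : ℕ) (hn : 1 ≤ n) (Nf NA s vr dd h S : ℝ) (hNf : 0 < Nf) (hNA : 0 < NA)
    (hs : 0 < s) (hv : 0 < vr) (hd : 0 < dd) (hh : 0 < h) :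
    Real.sqrt Nf / Real.sqrt s * ((2 : ℝ) ^ (3 * (n : ℝ) / 2 - 1) *
      (Real.sqrt (s / 2 ^ n) / Real.sqrt (NA * Nf) * (2 * S + h * (vr / Real.sqrt dd *
        (Real.log dd + Real.log (s / 2 ^ n) - Real.log (NA * Nf)))))) =
    (2 ^ (n - 1) * h * vr / Real.sqrt dd) * (Real.log (s / (Nf * NA)) +
      (Real.log dd - n * Real.log 2 + 2 * S * Real.sqrt dd / (h * vr))) / Real.sqrt NA := by
  have h2n : (0 : ℝ) < 2 ^ n := by positivity
  have l1 : Real.log (s / 2 ^ n) = Real.log s - n * Real.log 2 := by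
    rw [Real.log_div hs.ne' h2n.ne', Real.log_pow]
  have l2 : Real.log (NA * Nf) = Real.log NA + Real.log Nf := Real.log_mul hNA.ne' hNf.ne'
  have l3 : Real.log (s / (Nf * NA)) = Real.log s - (Real.log Nf + Real.log NA) := by
    rw [Real.log_div hs.ne' (by positivity), Real.log_mul hNf.ne' hNA.ne']
  have s1 : Real.sqrt (s / 2 ^ n) = Real.sqrt s / Real.sqrt (2 ^ n) := Real.sqrt_div hs.le _
  have s2 : Real.sqrt (NA * Nf) = Real.sqrt NA * Real.sqrt Nf := Real.sqrt_mul hNA.le _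
  have s3 : (2 : ℝ) ^ (3 * (n : ℝ) / 2 - 1) = 2 ^ (n - 1) * Real.sqrt (2 ^ n) := by
    rw [Real.sqrt_eq_rpow, ← Real.rpow_natCast, ← Real.rpow_natCast, ← Real.rpow_mul (by norm_num),
      ← Real.rpow_add (by norm_num)]
    congr 1
    rw [Nat.cast_sub hn]
    push_cast
    ring
  rw [l1, l2, l3, s1, s2, s3]
  have p1 : 0 < Real.sqrt Nf := Real.sqrt_pos.mpr hNf
  have p2 : 0 < Real.sqrt NA := Real.sqrt_pos.mpr hNA
  have p3 : 0 < Real.sqrt s := Real.sqrt_pos.mpr hs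
  have p4 : 0 < Real.sqrt dd := Real.sqrt_pos.mpr hd
  have p5 : 0 < Real.sqrt (2 ^ n) := Real.sqrt_pos.mpr h2n
  field_simp
  ring

/-- the constant term of one class. -/
theorem one (Na NB dd vr RF1 RF2 Y s1 s2 cFa cFaB cFd nFd Dm ixx : ℝ) (hNa : 0 < Na)
    (hNB : 0 < NB) (hdd : 0 < dd) (_hY : 0 < Y) (hix : ixx = Na ^ 2 * NB)
    (hcFa : cFa = Real.sqrt dd * Na) (hcFaB : cFaB = Real.sqrt dd * (Na * NB))
    (hDm : Dm = cFa * cFaB) (hcd : cFd * cFa = 1) (hnd : cFd = Real.sqrt dd * nFd)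
    (h1 : s1 = Na * NB * (RF1 - vr) + vr / Real.sqrt dd * Real.log (Na * NB))
    (h2 : s2 = nFd * (RF2 - vr) + vr / Real.sqrt dd * Real.log nFd) :
    Real.sqrt ixx * (Real.sqrt Y * ((RF1 - vr) + Dm⁻¹ * (RF2 - vr) +
      vr / cFaB * Real.log Y)) =
    Real.sqrt Y / Real.sqrt NB * (s1 + s2 + vr / Real.sqrt dd *
      (Real.log dd + Real.log Y - Real.log NB)) := by
  have p4 : 0 < Real.sqrt dd := Real.sqrt_pos.mpr hdd
  have hsq : Real.sqrt dd * Real.sqrt dd = dd := Real.mul_self_sqrt hdd.le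
  have hnFd : nFd = 1 / (dd * Na) := by
    have e : dd * Na * nFd = 1 := by
      rw [hnd, hcFa] at hcd
      linear_combination hcd - Na * nFd * hsq
    field_simp
    linarith
  have l1 : Real.log (Na * NB) = Real.log Na + Real.log NB := Real.log_mul hNa.ne' hNB.ne'
  have l2 : Real.log nFd = -(Real.log dd + Real.log Na) := by
    rw [hnFd, one_div, Real.log_inv, Real.log_mul hdd.ne' hNa.ne']
  have e1 : Real.sqrt ixx = Na * Real.sqrt NB := by
    rw [hix, Real.sqrt_mul (by positivity), Real.sqrt_sq hNa.le]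
  have hDm' : Dm = dd * (Na ^ 2 * NB) := by
    rw [hDm, hcFa, hcFaB]
    linear_combination (Na ^ 2 * NB) * hsq
  have p2 : 0 < Real.sqrt NB := Real.sqrt_pos.mpr hNB
  have q2 : NB = Real.sqrt NB * Real.sqrt NB := (Real.mul_self_sqrt hNB.le).symm
  rw [e1, h1, h2, l1, l2, hDm', hcFaB, hnFd]
  have f1 : Na * Real.sqrt NB * (Real.sqrt Y * ((RF1 - vr) + (dd * (Na ^ 2 * NB))⁻¹ *
      (RF2 - vr) + vr / (Real.sqrt dd * (Na * NB)) * Real.log Y)) =
      Real.sqrt Y / Real.sqrt NB * (NB * Na * ((RF1 - vr) + (dd * (Na ^ 2 * NB))⁻¹ *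
      (RF2 - vr) + vr / (Real.sqrt dd * (Na * NB)) * Real.log Y)) := by
    have : Real.sqrt NB = NB / Real.sqrt NB := by
      rw [eq_div_iff p2.ne']
      exact q2.symm
    calc _ = Na * (NB / Real.sqrt NB) * (Real.sqrt Y * ((RF1 - vr) + (dd * (Na ^ 2 * NB))⁻¹ *
      (RF2 - vr) + vr / (Real.sqrt dd * (Na * NB)) * Real.log Y)) := by rw [← this]
      _ = _ := by ring
  rw [f1]
  congr 1
  field_simp
  ring

theorem mk0_cr {k : Type} [Field k] [NumberField k] (c : ClassGroup (𝓞 k)) :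
    ClassGroup.mk0 (cr c) = c := Function.surjInv_eq _ c

theorem pf_CTE (hIXD : T_IXD) (hLIX : T_LIX) (hFRI : T_FRI) (hL0E : T_L0E) (hSCL : T_SCL)
    (hREG : T_REG) : T_CTE := by
  classical
  intro k _ _ _ A f D hD
  obtain ⟨hdk, -, hcard, -, -, -⟩ := hIXD k
  obtain ⟨hkp, hdg, hvR⟩ := hREG k
  obtain ⟨-, hS2, hS3, κ, hS4⟩ := hSCL k
  have hdd : (0 : ℝ) < (dk k : ℝ) := by exact_mod_cast hdk
  set B : (Ideal (𝓞 k))⁰ := A * f with hB
  have hBc : (A : Ideal (𝓞 k)) * (f : Ideal (𝓞 k)) = (B : Ideal (𝓞 k)) := rfl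
  rw [hBc]
  set y : Pl k → ℝ := fun v => Real.sqrt (D v) / 2 with hy
  have hy0 : ∀ v, 0 < y v := fun v => by
    have := Real.sqrt_pos.mpr (hD v)
    simp only [hy]
    positivity
  have hY : ∏ v, y v = sD D / 2 ^ dg k := by
    simp only [hy]
    rw [Finset.prod_div_distrib, Finset.prod_const, Finset.card_univ, hcard, sD,
      Real.sqrt_prod _ (fun v _ => (hD v).le)]
  have hsD : 0 < sD D := Real.sqrt_pos.mpr (Finset.prod_pos fun v _ => hD v)
  have hY0 : 0 < sD D / 2 ^ dg k := by positivity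
  obtain ⟨-, -, hNA1, hNf1⟩ := hLIX k A f
  have hNA : 0 < nm (A : Ideal (𝓞 k)) := by linarith
  have hNf : 0 < nm (f : Ideal (𝓞 k)) := by linarith
  have hNBe : nm (B : Ideal (𝓞 k)) = nm (A : Ideal (𝓞 k)) * nm (f : Ideal (𝓞 k)) := by
    rw [← hBc]
    unfold nm
    rw [map_mul]
    push_cast
    rfl
  have hNB : 0 < nm (B : Ideal (𝓞 k)) := by rw [hNBe]; positivity
  have hterm : ∀ c : ClassGroup (𝓞 k),
      Real.sqrt (ix (Lb (ci c) (B : Ideal (𝓞 k)))) * L0 (ci c) (B : Ideal (𝓞 k)) y =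
      Real.sqrt (sD D / 2 ^ dg k) / Real.sqrt (nm (B : Ideal (𝓞 k))) *
        (sC (ci (c * ClassGroup.mk0 B)) + sC (ci (κ * c⁻¹)) + vR k / Real.sqrt (dk k) *
          (Real.log (dk k) + Real.log (sD D / 2 ^ dg k) - Real.log (nm (B : Ideal (𝓞 k))))) := by
    intro c
    obtain ⟨f1, f2, f3, f4, f5, f6, f7, f8, f9, f10, -, -, -, -⟩ := hFRI k (cr c) B
    obtain ⟨g1, g2, g3, -⟩ := hLIX k (cr c) B
    have hNa : 0 < nm (cr c : Ideal (𝓞 k)) := by linarith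
    have i1 := f7 _ f1
    have i2 := f7 _ f2
    have i3 := f7 _ f3
    have hL := hL0E k (cr c) B y hy0
    have hs1 : sF (iF ((cr c : Ideal (𝓞 k)) * (B : Ideal (𝓞 k)))) =
        sC (ci (c * ClassGroup.mk0 B)) := by
      have e1 : (cr c : Ideal (𝓞 k)) * (B : Ideal (𝓞 k)) = ((cr c * B : (Ideal (𝓞 k))⁰) :
        Ideal (𝓞 k)) := rfl
      rw [e1, hS2]
      refine hS3 _ _ ?_
      rw [map_mul, mk0_cr, mk0_cr]
    have hs2 : sF (dF (iF (cr c : Ideal (𝓞 k)))) = sC (ci (κ * c⁻¹)) := by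
      refine hS4 _ _ ?_
      rw [mk0_cr, mk0_cr]
    have hci : ci c = (cr c : Ideal (𝓞 k)) := rfl
    rw [hci, hL, hY, ← hs1, ← hs2]
    refine one (nm (cr c : Ideal (𝓞 k))) (nm (B : Ideal (𝓞 k))) (dk k) (vR k) _ _ _ _ _
      (cF (iF (cr c : Ideal (𝓞 k)))) _ (cF (dF (iF (cr c : Ideal (𝓞 k)))))
      (nF (dF (iF (cr c : Ideal (𝓞 k))))) _ _ hNa hNB hdd hY0 g1 ?_ ?_ f10 i1.2.2.2.2 i3.2.2.2.1
      ?_ rfl
    · rw [i1.2.2.2.1, f8]
    · rw [i2.2.2.2.1, f9]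
    · unfold sF
      rw [f9]
  have hsum : ∑ c : ClassGroup (𝓞 k),
      Real.sqrt (ix (Lb (ci c) (B : Ideal (𝓞 k)))) * L0 (ci c) (B : Ideal (𝓞 k)) y =
      Real.sqrt (sD D / 2 ^ dg k) / Real.sqrt (nm (A : Ideal (𝓞 k)) * nm (f : Ideal (𝓞 k))) *
        (2 * (∑ c : ClassGroup (𝓞 k), sC (ci c)) + classNumber k * (vR k / Real.sqrt (dk k) *
          (Real.log (dk k) + Real.log (sD D / 2 ^ dg k) -
            Real.log (nm (A : Ideal (𝓞 k)) * nm (f : Ideal (𝓞 k)))))) := by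
    rw [Finset.sum_congr rfl (fun c _ => hterm c), ← Finset.mul_sum, Finset.sum_add_distrib,
      Finset.sum_add_distrib, Finset.sum_const, Finset.card_univ, nsmul_eq_mul, ← hNBe]
    have e1 : ∑ c : ClassGroup (𝓞 k), sC (ci (c * ClassGroup.mk0 B)) =
        ∑ c : ClassGroup (𝓞 k), sC (ci c) :=
      Equiv.sum_comp (Equiv.mulRight (ClassGroup.mk0 B)) (fun c => sC (ci c))
    have e2 : ∑ c : ClassGroup (𝓞 k), sC (ci (κ * c⁻¹)) =
        ∑ c : ClassGroup (𝓞 k), sC (ci c) :=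
      Equiv.sum_comp ((Equiv.inv (ClassGroup (𝓞 k))).trans (Equiv.mulLeft κ)) (fun c => sC (ci c))
    rw [e1, e2, classNumber]
    ring
  rw [hsum, num (dg k) hdg _ _ _ _ _ _ _ hNf hNA hsD hvR hdd
    (by exact_mod_cast classNumber_pos k)]
  unfold ct
  rw [hkp]
  rfl

end Pool.Agent.H82.NVE_CTE
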