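import Pool.Agent.H61.NVK.TargetsE2
import Pool.Agent.H63.CM4B.PHI

/-!
# LAM: the central value of one lattice in terms of theta functions (helper82, board nvk_modules)
-/

set_option autoImplicit false

open MeasureTheory Set Filter NumberField NumberField.InfinitePlace Pool.Agent.H65.CM4
  Pool.Agent.H61.CM4 Pool.Agent.H61.NVK
open scoped Real nonZeroDivisors Topology

namespace Pool.Agent.H82.NVE_LAM

theorem conv1 (P : WeakFEPair ℂ) : IntegrableOn P.f_modif (Ioi 0) := by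
  have h := Pool.Agent.H11.HK.conv P 1
  refine (integrableOn_congr_fun ?_ measurableSet_Ioi).mp h
  intro t _
  simp

theorem int_f (P : WeakFEPair ℂ) : IntegrableOn (fun t => P.f t - P.f₀) (Ioi 1) := by
  have h := (conv1 P).mono_set (Ioi_subset_Ioi (zero_le_one : (0 : ℝ) ≤ 1))
  refine (integrableOn_congr_fun ?_ measurableSet_Ioi).mp h
  intro t ht
  have ht' : (1 : ℝ) < t := ht
  simp only [WeakFEPair.f_modif, Pi.add_apply]
  rw [indicator_of_mem ht, indicator_of_notMem (notMem_Ioo_of_ge ht'.le), add_zero]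

theorem mell_ind (F : ℝ → ℂ) : mellin ((Ioi 1).indicator F) 1 = ∫ t in Ioi (1 : ℝ), F t := by
  have h1 : mellin ((Ioi 1).indicator F) 1 = ∫ t in Ioi (0 : ℝ), (Ioi 1).indicator F t := by
    unfold mellin
    refine setIntegral_congr_fun measurableSet_Ioi fun t _ => ?_
    simp
  rw [h1, setIntegral_indicator measurableSet_Ioi]
  congr 2
  ext t
  simp only [mem_inter_iff, mem_Ioi]
  constructor
  · exact fun h => h.2
  · exact fun h => ⟨by linarith, h⟩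

theorem mell_conv_ind (P : WeakFEPair ℂ) (S : Set ℝ) (hS : MeasurableSet S) :
    MellinConvergent (S.indicator P.f_modif) 1 := by
  have h := (conv1 P).indicator hS
  unfold MellinConvergent
  refine (integrableOn_congr_fun ?_ measurableSet_Ioi).mp h
  intro t _
  simp

theorem modif_split (P : WeakFEPair ℂ) :
    P.f_modif = fun t => (Ioi 1).indicator P.f_modif t + (Ioo 0 1).indicator P.f_modif t := by
  funext t
  by_cases h1 : t ∈ Ioi (1 : ℝ)
  · have h2 : t ∉ Ioo (0 : ℝ) 1 := notMem_Ioo_of_ge (le_of_lt h1)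
    rw [indicator_of_mem h1, indicator_of_notMem h2, add_zero]
  · by_cases h2 : t ∈ Ioo (0 : ℝ) 1
    · rw [indicator_of_notMem h1, indicator_of_mem h2, zero_add]
    · rw [indicator_of_notMem h1, indicator_of_notMem h2, add_zero]
      unfold WeakFEPair.f_modif
      rw [Pi.add_apply, indicator_of_notMem h1, indicator_of_notMem h2, add_zero]

theorem ind_top (P : WeakFEPair ℂ) :
    (Ioi 1).indicator P.f_modif = (Ioi 1).indicator (fun t => P.f t - P.f₀) := by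
  funext t
  by_cases h1 : t ∈ Ioi (1 : ℝ)
  · have h2 : t ∉ Ioo (0 : ℝ) 1 := notMem_Ioo_of_ge (le_of_lt h1)
    rw [indicator_of_mem h1, indicator_of_mem h1]
    unfold WeakFEPair.f_modif
    rw [Pi.add_apply, indicator_of_mem h1, indicator_of_notMem h2, add_zero]
  · rw [indicator_of_notMem h1, indicator_of_notMem h1]

theorem mell_low (P : WeakFEPair ℂ) (hk : P.k = 2) :
    mellin ((Ioo 0 1).indicator P.f_modif) 1 = P.ε * ∫ t in Ioi (1 : ℝ), (P.g t - P.g₀) := by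
  have h1 := mellin_comp_inv ((Ioo 0 1).indicator P.f_modif) (-1)
  rw [neg_neg] at h1
  rw [← h1]
  have h2 : mellin (fun t => (Ioo 0 1).indicator P.f_modif t⁻¹) (-1) =
      mellin (fun t : ℝ => (t : ℂ) ^ (2 : ℂ) • (P.ε • (Ioi 1).indicator P.symm.f_modif t)) (-1) := by
    unfold mellin
    refine setIntegral_congr_fun measurableSet_Ioi fun t ht => ?_
    have ht0 : (0 : ℝ) < t := ht
    simp only
    congr 1
    by_cases h1 : t ∈ Ioi (1 : ℝ)
    · have h1' : (1 : ℝ) < t := h1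
      have h2 : t⁻¹ ∈ Ioo (0 : ℝ) 1 := ⟨inv_pos.mpr ht0, inv_lt_one_of_one_lt₀ h1'⟩
      rw [indicator_of_mem h1, indicator_of_mem h2]
      have h3 := P.hf_modif_FE t ht0
      rw [one_div] at h3
      rw [h3, hk]
      have h4 : ((t ^ (2 : ℝ) : ℝ) : ℂ) = (t : ℂ) ^ (2 : ℂ) := by
        rw [Complex.ofReal_cpow ht0.le]
        norm_num
      rw [h4, mul_comm, mul_smul]
      rfl
    · have h2 : t⁻¹ ∉ Ioo (0 : ℝ) 1 := by
        intro h
        have h5 := h.2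
        have h6 : (1 : ℝ) < t := by
          rcases lt_or_ge 1 t with h | h
          · exact h
          · exact absurd h5 (not_lt.mpr ((one_le_inv₀ ht0).mpr h))
        exact h1 h6
      rw [indicator_of_notMem h1, indicator_of_notMem h2, smul_zero, smul_zero]
  rw [h2, mellin_cpow_smul, mellin_const_smul]
  have h3 : (-1 + 2 : ℂ) = 1 := by norm_num
  rw [h3, ind_top P.symm, mell_ind]
  rfl

theorem lam0 (P : WeakFEPair ℂ) (hk : P.k = 2) :
    P.Λ₀ 1 = (∫ t in Ioi (1 : ℝ), (P.f t - P.f₀)) +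
      P.ε * ∫ t in Ioi (1 : ℝ), (P.g t - P.g₀) := by
  unfold WeakFEPair.Λ₀
  rw [← mell_low P hk, ← mell_ind, ← ind_top P]
  conv_lhs => rw [modif_split P]
  exact (hasMellin_add (mell_conv_ind P _ measurableSet_Ioi)
    (mell_conv_ind P _ measurableSet_Ioo)).2

theorem gG_half : gG (1 / 2) = ((-(1 / 4) * (Real.sqrt 2)⁻¹ : ℝ) : ℂ) := by
  unfold gG
  rw [Complex.Gamma_one_half_eq]
  have h1 : (2 * (π : ℂ)) ^ (-(1 / 2) : ℂ) = (((2 * π) ^ (-(1 / 2) : ℝ) : ℝ) : ℂ) := by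
    rw [Complex.ofReal_cpow (by positivity)]
    push_cast
    ring_nf
  have h2 : ((π : ℂ)) ^ (1 / 2 : ℂ) = ((π ^ (1 / 2 : ℝ) : ℝ) : ℂ) := by
    rw [Complex.ofReal_cpow Real.pi_pos.le]
    push_cast
    ring_nf
  rw [h1, h2]
  have h3 : (2 * π) ^ (-(1 / 2) : ℝ) = (Real.sqrt 2)⁻¹ * (π ^ (1 / 2 : ℝ))⁻¹ := by
    rw [Real.rpow_neg (by positivity), Real.mul_rpow (by norm_num) Real.pi_pos.le,
      ← Real.sqrt_eq_rpow 2, mul_inv]
  rw [h3]
  have h4 : (0 : ℝ) < π ^ (1 / 2 : ℝ) := Real.rpow_pos_of_pos Real.pi_pos _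
  have h5 : π ^ (1 / 2 : ℝ) * (π ^ (1 / 2 : ℝ))⁻¹ = 1 := mul_inv_cancel₀ h4.ne'
  have h6 : (((π ^ (1 / 2 : ℝ) : ℝ) : ℂ)) * (((π ^ (1 / 2 : ℝ) : ℝ) : ℂ))⁻¹ = 1 := by
    rw [← Complex.ofReal_inv, ← Complex.ofReal_mul, h5, Complex.ofReal_one]
  push_cast
  linear_combination (-(1 / 4 : ℂ) * ((Real.sqrt 2 : ℝ) : ℂ)⁻¹) * h6

theorem pow_id (n : ℕ) (hn : 0 < n) :
    ((Real.sqrt 2)⁻¹) ^ n * (2 : ℝ) ^ (3 * (n : ℝ) / 2 - 1) = 2 ^ (n - 1) := by
  obtain ⟨l, rfl⟩ : ∃ l, n = l + 1 := ⟨n - 1, by omega⟩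
  rw [Nat.add_sub_cancel, Real.sqrt_eq_rpow, ← Real.rpow_neg (by norm_num), ← Real.rpow_natCast,
    ← Real.rpow_mul (by norm_num), ← Real.rpow_add (by norm_num), ← Real.rpow_natCast]
  congr 1
  push_cast
  ring

open scoped Classical in
theorem pf_LAM (hIXD : T_IXD) (hWP2 : T_WP2) (hME2 : T_ME2) : T_LAM := by
  intro k _ _ _ M x y hM hy
  obtain ⟨hdk, hdg, -, -, hdu, -⟩ := hIXD k
  obtain ⟨P, hPf, hPg, hPk, hPe, hPf0, hPg0⟩ := hWP2 k M x y hM hy
  have hv : vF k = vR k := rfl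
  have hf : ∀ t, P.f t - P.f₀ = ((f2 M x y t - vR k : ℝ) : ℂ) := by
    intro t
    rw [hPf, hPf0, hv]
    push_cast
    ring
  have hg : ∀ t, P.g t - P.g₀ =
      ((f2 (du M) x y (((Dm M : ℝ) ^ dg k)⁻¹ * t) - vR k : ℝ) : ℂ) := by
    intro t
    rw [hPg, hPg0, hv]
    push_cast
    ring
  have I1 : IntegrableOn (fun t : ℝ => f2 M x y t - vR k) (Ioi 1) := by
    have h := (int_f P).re
    refine h.congr (ae_of_all _ fun t => ?_)
    simp only
    rw [hf]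
    exact Complex.ofReal_re _
  have I2 : IntegrableOn (fun t : ℝ => f2 (du M) x y (((Dm M : ℝ) ^ dg k)⁻¹ * t) - vR k)
      (Ioi 1) := by
    have h := (int_f P.symm).re
    refine h.congr (ae_of_all _ fun t => ?_)
    simp only
    have h2 : P.symm.f t - P.symm.f₀ = P.g t - P.g₀ := rfl
    rw [h2, hg]
    exact Complex.ofReal_re _
  refine ⟨I1, I2, fun Φ hΦ hΦ1 => ?_⟩
  have hL1 : P.Λ 1 = ((Lam M x y : ℝ) : ℂ) := by
    unfold WeakFEPair.Λ
    rw [lam0 P hPk, hPk, hPe, hPf0, hPg0, hv]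
    have e1 : (∫ t in Ioi (1 : ℝ), (P.f t - ((vR k : ℝ) : ℂ))) =
        ((∫ t in Ioi (1 : ℝ), (f2 M x y t - vR k) : ℝ) : ℂ) := by
      rw [← integral_complex_ofReal]
      refine setIntegral_congr_fun measurableSet_Ioi fun t _ => ?_
      have := hf t
      rw [hPf0, hv] at this
      exact this
    have e2 : (∫ t in Ioi (1 : ℝ), (P.g t - ((vR k : ℝ) : ℂ))) =
        ((∫ t in Ioi (1 : ℝ), (f2 (du M) x y (((Dm M : ℝ) ^ dg k)⁻¹ * t) - vR k) : ℝ) : ℂ) := by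
      rw [← integral_complex_ofReal]
      refine setIntegral_congr_fun measurableSet_Ioi fun t _ => ?_
      have := hg t
      rw [hPg0, hv] at this
      exact this
    rw [e1, e2]
    unfold Lam
    push_cast
    simp only [smul_eq_mul]
    ring
  have hmN : 0 < ix M := Nat.pos_of_ne_zero hM
  have hm0 : (0 : ℝ) < (ix M : ℝ) := by exact_mod_cast hmN
  have hq : ∀ u : V2 k, u ≠ 0 → 0 < qp x y u :=
    (hME2 k M x y 2 hM hy (by norm_num)).1
  have hFo : ∀ u : V2 k, u ∈ Fo k → u ≠ 0 := fun u hu => hu.1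
  have hgG : ∀ s : ℂ, (s * (s - 1)) ^ dg k *
      (Complex.Gamma s * (2 * (π : ℂ)) ^ (-s)) ^ dg k = gG s ^ dg k := by
    intro s
    rw [← mul_pow]
    unfold gG
    congr 1
    ring
  have h2n : (2 : ℂ) ^ (dg k - 1) * (2 * ((2 : ℂ) ^ dg k)⁻¹) = 1 := by
    obtain ⟨l, hl⟩ : ∃ l, dg k = l + 1 := ⟨dg k - 1, by omega⟩
    rw [hl, Nat.add_sub_cancel, pow_succ]
    have : (2 : ℂ) ^ l ≠ 0 := pow_ne_zero _ two_ne_zero
    field_simp
  have hZ1 : ∀ (M' : La k) (s : ℂ), (∑' u : V2 k, if u ∈ M' ∧ u ∈ Fo k then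
      ((qp x y u : ℝ) : ℂ) ^ (-s) else 0) = Zd M' x y 1 s := by
    intro M' s
    unfold Zd
    simp only [one_mul]
  have hPhi : ∀ s : ℂ, 1 < s.re → Pool.Agent.H63.CM4B.PhiF P (ix M : ℝ) (dg k) s =
      gG s ^ dg k * Zd M x y (ix M : ℝ)⁻¹ s := by
    intro s hs
    have hs0 : s ≠ 0 := by
      intro h
      rw [h, Complex.zero_re] at hs
      linarith
    have hs1 : s ≠ 1 := by
      intro h
      rw [h, Complex.one_re] at hs
      exact lt_irrefl _ hs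
    rw [Pool.Agent.H63.CM4B.PhiF_eq P _ _ hdg hPk s hs0 hs1]
    have hre : P.k < (2 * s).re := by
      rw [hPk]
      have : (2 * s).re = 2 * s.re := by simp
      rw [this]
      linarith
    have h1 := (P.hasMellin hre).2
    have h2 : (fun t => P.f t - P.f₀) = fun t => ((f2 M x y t - vF k : ℝ) : ℂ) := by
      funext t
      rw [hPf, hPf0]
      push_cast
      ring
    rw [h2, (hME2 k M x y s hM hy hs).2.2, hZ1] at h1
    rw [← h1, Pool.Agent.H63.CM4B.Zd_eq M x y hq hFo _ (inv_pos.2 hm0) s, ← hgG]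
    have h3 : (((ix M : ℝ)⁻¹ : ℝ) : ℂ) ^ (-s) = ((ix M : ℝ) : ℂ) ^ s := by
      rw [Complex.ofReal_inv, Complex.inv_cpow, Complex.cpow_neg, inv_inv]
      rw [Complex.arg_ofReal_of_nonneg hm0.le]
      exact Real.pi_pos.ne
    rw [h3]
    linear_combination (((ix M : ℝ) : ℂ) ^ s * (s * (s - 1)) ^ dg k *
      (Complex.Gamma s * (2 * (π : ℂ)) ^ (-s)) ^ dg k * Zd M x y 1 s) * h2n
  have hEq : Φ = Pool.Agent.H63.CM4B.PhiF P (ix M : ℝ) (dg k) := by
    have hd := Pool.Agent.H63.CM4B.PhiF_diff P (ix M : ℝ) (dg k) hm0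
    refine AnalyticOnNhd.eq_of_eventuallyEq (𝕜 := ℂ) (z₀ := (2 : ℂ))
      (fun z _ => hΦ.analyticAt z) (fun z _ => hd.analyticAt z) ?_
    have hopen : IsOpen {s : ℂ | 1 < s.re} := isOpen_lt continuous_const Complex.continuous_re
    filter_upwards [hopen.mem_nhds (show (2 : ℂ) ∈ {s : ℂ | 1 < s.re} by simp)] with s hs
    rw [hΦ1 s hs, hPhi s hs]
  rw [hEq, Pool.Agent.H63.CM4B.PhiF_eq P _ _ hdg hPk (1 / 2) (by norm_num) (by norm_num)]
  have h1 : (2 * (1 / 2) : ℂ) = 1 := by norm_num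
  rw [h1, hL1, gG_half]
  have h2 : ((ix M : ℝ) : ℂ) ^ (1 / 2 : ℂ) = ((Real.sqrt (ix M) : ℝ) : ℂ) := by
    rw [Real.sqrt_eq_rpow, Complex.ofReal_cpow hm0.le]
    push_cast
    ring_nf
  rw [h2]
  have h3 : ((1 / 2 : ℂ) * (1 / 2 - 1)) ^ dg k = (((-(1 / 4) : ℝ) ^ dg k : ℝ) : ℂ) := by
    push_cast
    congr 1
    norm_num
  have h4 : (2 : ℂ) ^ (dg k - 1) = (((2 : ℝ) ^ (dg k - 1) : ℝ) : ℂ) := by push_cast; rfl
  rw [h3, h4, ← Complex.ofReal_pow, ← Complex.ofReal_mul, ← Complex.ofReal_mul,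
    ← Complex.ofReal_mul, ← Complex.ofReal_mul]
  congr 1
  rw [← pow_id (dg k) hdg, mul_pow]
  ring

end Pool.Agent.H82.NVE_LAM
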